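import Mathlib
import Pool.Agent.Q182.EEDefs
import Pool.Agent.Q182.EEFinal

/-!
# A class `ω ∈ H⁴(ℤ⁸)` with `B_ω ≅ E₈ ⊕ 10 H`

The class is a signed sum of 13 monomials; with `x_{ijkl} = x_i x_j x_k x_l` and indices `0, …, 7`
it is `x₂₄₆₇ + x₂₄₅₇ - x₂₃₄₆ - x₁₄₆₇ - x₁₃₅₇ - x₁₂₅₆ - x₀₃₅₆ + x₀₃₄₇ - x₀₃₄₆ - x₀₂₆₇ - x₀₂₃₆ +
x₀₁₄₅ + x₀₁₂₃` (see `Q182.EE.omP`). The first part of the theorem shows that the form `B` in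
`IsPairing` is uniquely determined.
-/

namespace Pool.Agent.Results.MP_58c1a9_gt.EightTorusE8

open Q182

theorem result :
    (∀ c : ℤ, c • volT = 0 → c = 0) ∧
    ∃ ω ∈ cohDeg 4, ∃ B, IsPairing ω B ∧
      ∃ e : (Fin 8 ⊕ Fin 2 × Fin 10 → ℤ) ≃ₗ[ℤ] cohDeg 2,
        ∀ u v : Fin 8 ⊕ Fin 2 × Fin 10 → ℤ, B (e u) (e v) = u ⬝ᵥ (gramE8H.mulVec v) :=
  EE.main

end Pool.Agent.Results.MP_58c1a9_gt.EightTorusE8
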